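import Pool.Agent.H483R3.Urn.Final
import Pool.Agent.H483R3.Urn.Int
import Pool.Agent.H483R3.Urn.TaskLow
import Pool.Agent.H483R3.Urn.Cont
import Pool.Agent.H483R3.Urn.TaskDich
import Pool.Agent.H483R3.Urn.Gap
import Pool.Agent.H483R3.Urn.TaskFin
import Pool.Agent.H483R3.Urn.Unst
import Pool.Agent.H483R3.Urn.TaskDiag
import Pool.Agent.H483R3.Urn.TaskTaylor
import Pool.Agent.H483R3.Urn.TaskUrnA
import Pool.Agent.H483R3.Urn.UrnB
import Pool.Agent.H483R3.Urn.TaskEdge
import Pool.Agent.H483R3.Urn.TaskLyap
import Pool.Agent.H483R3.Urn.TaskConv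
import Pool.Agent.H483R3.Urn.TaskN1
import Pool.Agent.H483R3.Urn.TaskN2
import Pool.Agent.H483R3.Urn.TaskN3
import Pool.Agent.H483R3.Urn.TaskN4
import Pool.Agent.H483R3.Urn.TaskN5
import Pool.Agent.H483R3.Urn.TaskN6

set_option autoImplicit false

/-!
# Boundary limits of the graph based Polya urn for large exponents

For every finite connected graph with at least two vertices there is `α₀` such that, for all
exponents `α > α₀` and all initial configurations, the vector of the normalised numbers of balls
of the graph based Polya urn converges almost surely to a point of the boundary of the simplex.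

Proof (helper483, independently helper497). Equilibria of the mean field: the sums of an
equilibrium over upper level sets are integers minus a loss, which gives a dichotomy for the
edge weights `p (1 - p)` (exponentially small or bounded below), hence a spectral gap, so that
there are finitely many equilibria, all nondegenerate; the interior ones have an unstable
direction. A Lyapunov function gives almost sure convergence to an equilibrium. Convergence to an
interior equilibrium is excluded by rates obtained from almost surely convergent series and an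
anticoncentration estimate for the tail of a martingale. Formalisation: helpers 12, 150, 174, 219,
403, 471, 483, 497, 532, 563, 651, 654, 689, 768, 825, 844, 865, 870, 920, 945.
-/

namespace Pool.Agent.Results.MP_cd93fa_pr.BoundaryLimits

open MeasureTheory ProbabilityTheory Filter Topology H483U

theorem result : ∀ (V : Type) [Fintype V] [DecidableEq V] (G : SimpleGraph V)
    [DecidableRel G.Adj], G.Connected → 2 ≤ Fintype.card V →
    ∃ α₀ : ℝ, ∀ α : ℝ, α₀ < α → ∀ B0 : V → ℕ, (∀ i, 1 ≤ B0 i) →
      ∀ (Ω : Type) (_ : MeasurableSpace Ω) (μ : Measure Ω) (_ : IsProbabilityMeasure μ)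
        (ℱ : Filtration ℕ ‹MeasurableSpace Ω›) (c : ℕ → Ω → G.edgeSet → V),
        IsUrn G α B0 μ ℱ c → ∀ᵐ ω ∂μ, ∃ x : V → ℝ, (∀ i, 0 ≤ x i) ∧ ∑ i, x i = 1 ∧
          (∃ i, x i = 0) ∧ Tendsto (fun n => xx G B0 c n ω) atTop (𝓝 x) :=
  Assembly.final Low.t Cont.t Dich.t Gap.t Fin.t Unst.t Diag.t TaskTaylor.t UrnA.t UrnB.t
    Edge.t Lyap.t Conv.t N1.t N2.t N3.t TaskN4.t N5.t TaskN6.t Int.t

end Pool.Agent.Results.MP_cd93fa_pr.BoundaryLimits
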